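import Mathlib
import Pool.Agent.helper68.SF.SpecW

set_option autoImplicit false

namespace SF

open Pool.Agent.helper72.Sq
open scoped ContDiff

theorem K01_inner (F : ℝ → ℝ) (n : ℝ) (hn : 0 < n) :
    ∫ t : ℝ, F t = n * ∫ q : ℝ, F (n * q) := by
  rw [MeasureTheory.Measure.integral_comp_mul_left F n, smul_eq_mul, abs_of_pos (inv_pos.mpr hn)]
  field_simp

theorem K01_outer (J : ℝ → ℝ) (m c : ℝ) (hm : m ≠ 0) :
    ∫ ξ in (0 : ℝ)..(m * c), J ξ = m * ∫ p in (0 : ℝ)..c, J (m * p) := by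
  rw [intervalIntegral.integral_comp_mul_left (fun ξ => J ξ) hm, smul_eq_mul, mul_zero]
  field_simp

theorem K01 : K01_stmt := by
  intro g s x y hy
  have hr2 : 0 < x ^ 2 + y ^ 2 := by positivity
  obtain ⟨r, hr⟩ : ∃ r, r = √(x ^ 2 + y ^ 2) := ⟨_, rfl⟩
  have hrpos : 0 < r := by rw [hr]; exact Real.sqrt_pos.mpr hr2
  have hrr : x ^ 2 + y ^ 2 = r ^ 2 := by rw [hr, Real.sq_sqrt hr2.le]
  obtain ⟨w, hw⟩ : ∃ w, w = √y := ⟨_, rfl⟩
  have hwpos : 0 < w := by rw [hw]; exact Real.sqrt_pos.mpr hy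
  have hww : w ^ 2 = y := by rw [hw, Real.sq_sqrt hy.le]
  have hsq : √(y / (25 * r ^ 2)) = w / (5 * r) := by
    rw [hw, Real.sqrt_div hy.le]
    congr 1
    rw [show 25 * r ^ 2 = (5 * r) ^ 2 by ring]
    exact Real.sqrt_sq (by positivity)
  obtain ⟨e, he⟩ : ∃ e, e = Real.exp (2 * s) := ⟨_, rfl⟩
  have hepos : 0 < e := by rw [he]; exact Real.exp_pos _
  unfold k1 k0 NN
  rw [← hr, ← hw, ← he, hrr, hsq]
  have hx' : -(x / (25 * r ^ 2)) = (-(1 / (25 * r))) * (x / r) := by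
    field_simp
  have hm : -(1 / (25 * r)) ≠ 0 := neg_ne_zero.mpr (ne_of_gt (by positivity))
  rw [hx', K01_outer _ _ _ hm]
  have hin : ∀ p : ℝ, ∫ t : ℝ, deriv g (e * ((-(1 / (25 * r)) * p) ^ 2 + t ^ 2 +
      (y / (25 * r ^ 2)) ^ 2) / (y / (25 * r ^ 2))) =
      1 / (25 * r) * ∫ t : ℝ, deriv g (e / (25 * y) * (p ^ 2 + t ^ 2 + 1 - (x / r) ^ 2)) := by
    intro p
    rw [K01_inner (fun t => deriv g (e * ((-(1 / (25 * r)) * p) ^ 2 + t ^ 2 +
      (y / (25 * r ^ 2)) ^ 2) / (y / (25 * r ^ 2)))) (1 / (25 * r)) (by positivity)]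
    congr 1
    apply MeasureTheory.integral_congr_ae
    filter_upwards with q
    congr 1
    have h1 : (x / r) ^ 2 = 1 - y ^ 2 / r ^ 2 := by
      rw [div_pow, eq_sub_iff_add_eq, ← add_div, hrr]
      field_simp
    rw [h1]
    field_simp
    ring
  simp only [hin]
  rw [intervalIntegral.integral_const_mul]
  have hy' : y = w ^ 2 := hww.symm
  obtain ⟨I, hI⟩ : ∃ I, I = ∫ p in (0 : ℝ)..(x / r), ∫ t : ℝ,
    deriv g (e / (25 * y) * (p ^ 2 + t ^ 2 + 1 - (x / r) ^ 2)) := ⟨_, rfl⟩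
  rw [← hI, hy']
  have hpi := Real.pi_pos
  field_simp
  ring

end SF
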