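import Mathlib
import Pool.Agent.helper1.SF.SpecA

set_option autoImplicit false

namespace SF

open Pool.Agent.helper72.Sq MeasureTheory Set
open scoped ContDiff

/-- telescoping bound for the sum of `1 / (M + n) ^ 2`, `n ≥ 1`. -/
theorem L0B_nat (M : ℝ) (hM : 1 ≤ M) (N : ℕ) :
    ∑ n ∈ Finset.range N, 1 / (M + ((n : ℝ) + 1)) ^ 2 ≤ 1 / M - 1 / (M + N) := by
  induction N with
  | zero => simp
  | succ N ih =>
    rw [Finset.sum_range_succ]
    have h0 : (0 : ℝ) ≤ N := Nat.cast_nonneg N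
    have h1 : 1 / (M + ((N : ℝ) + 1)) ^ 2 ≤ 1 / (M + N) - 1 / (M + ((N : ℝ) + 1)) := by
      rw [div_sub_div _ _ (by positivity) (by positivity), div_le_div_iff₀ (by positivity)
        (by positivity)]
      nlinarith
    push_cast
    linarith

theorem L0B_natsum (M : ℝ) (hM : 1 ≤ M) :
    Summable (fun n : ℕ => 1 / (M + ((n : ℝ) + 1)) ^ 2) ∧
    ∑' n : ℕ, 1 / (M + ((n : ℝ) + 1)) ^ 2 ≤ 1 / M := by
  have h1 : ∀ n : ℕ, 0 ≤ 1 / (M + ((n : ℝ) + 1)) ^ 2 := fun n => by positivity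
  have h2 : ∀ N : ℕ, ∑ n ∈ Finset.range N, 1 / (M + ((n : ℝ) + 1)) ^ 2 ≤ 1 / M := by
    intro N
    have h3 := L0B_nat M hM N
    have h4 : 0 ≤ 1 / (M + (N : ℝ)) := by positivity
    linarith
  exact ⟨summable_of_sum_range_le h1 h2, Real.tsum_le_of_sum_range_le h1 h2⟩

/-- the weight -/
noncomputable def L0B_w (M : ℝ) (m : ℤ) : ℝ := 1 / (M + |(m : ℝ)|) ^ 2

theorem L0B_int (M : ℝ) (hM : 1 ≤ M) :
    Summable (L0B_w M) ∧ ∑' m : ℤ, L0B_w M m ≤ 3 / M := by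
  obtain ⟨hs, ht⟩ := L0B_natsum M hM
  have e1 : ∀ n : ℕ, L0B_w M ((n : ℤ) + 1) = 1 / (M + ((n : ℝ) + 1)) ^ 2 := by
    intro n
    unfold L0B_w
    push_cast
    rw [abs_of_nonneg (by positivity)]
  have e2 : ∀ n : ℕ, L0B_w M (-((n : ℤ) + 1)) = 1 / (M + ((n : ℝ) + 1)) ^ 2 := by
    intro n
    unfold L0B_w
    push_cast
    rw [abs_of_nonpos (by
      have : (0 : ℝ) ≤ n := Nat.cast_nonneg n
      linarith)]
    ring_nf
  have s1 : HasSum (fun n : ℕ => L0B_w M ((n : ℤ) + 1)) (∑' n : ℕ, 1 / (M + ((n : ℝ) + 1)) ^ 2) := by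
    simp only [e1]
    exact hs.hasSum
  have s2 : HasSum (fun n : ℕ => L0B_w M (-((n : ℤ) + 1)))
      (∑' n : ℕ, 1 / (M + ((n : ℝ) + 1)) ^ 2) := by
    simp only [e2]
    exact hs.hasSum
  have s0 : HasSum (fun n : ℕ => L0B_w M (n : ℤ))
      (L0B_w M 0 + ∑' n : ℕ, 1 / (M + ((n : ℝ) + 1)) ^ 2) := by
    have h := (hasSum_nat_add_iff (f := fun n : ℕ => L0B_w M (n : ℤ)) 1).1 (by
      simpa using s1)
    simpa [add_comm] using h
  have s3 := HasSum.of_nat_of_neg_add_one s0 s2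
  refine ⟨s3.summable, ?_⟩
  rw [s3.tsum_eq]
  have h0 : L0B_w M 0 ≤ 1 / M := by
    unfold L0B_w
    simp only [Int.cast_zero, abs_zero, add_zero]
    rw [div_le_div_iff₀ (by positivity) (by positivity)]
    nlinarith
  have h3 : 3 / M = 1 / M + 1 / M + 1 / M := by ring
  rw [h3]
  linarith

/-- distance of the factors from zero -/
theorem L0B_tau (l δ : ℝ) (hl : 1 ≤ l) (hδ : 0 < δ) (h : ∀ p : ℤ, δ ≤ |p - 5 * l|) (m : ℤ) :
    δ * l / 5 ≤ |l ^ 2 - (m : ℝ) ^ 2 / 25| := by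
  have e : l ^ 2 - (m : ℝ) ^ 2 / 25 = (5 * l - m) * (5 * l + m) / 25 := by ring
  rw [e, abs_div, abs_mul, abs_of_pos (by norm_num : (0 : ℝ) < 25)]
  have h1 : δ ≤ |5 * l - m| := by
    have := h m
    rwa [abs_sub_comm] at this
  have h2 : δ ≤ |5 * l + m| := by
    have := h (-m)
    push_cast at this
    rw [abs_sub_comm] at this
    have e3 : 5 * l - -(m : ℝ) = 5 * l + m := by ring
    rwa [e3] at this
  rcases le_total 0 (m : ℝ) with hm | hm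
  · have h3 : 5 * l ≤ |5 * l + m| := by
      rw [abs_of_nonneg (by linarith)]
      linarith
    have h4 : δ * (5 * l) ≤ |5 * l - m| * |5 * l + m| :=
      mul_le_mul h1 h3 (by linarith) (abs_nonneg _)
    linarith
  · have h3 : 5 * l ≤ |5 * l - m| := by
      rw [abs_of_nonneg (by linarith)]
      linarith
    have h4 : (5 * l) * δ ≤ |5 * l - m| * |5 * l + m| :=
      mul_le_mul h3 h2 hδ.le (abs_nonneg _)
    linarith

/-- the logarithm of a quotient -/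
theorem L0B_log (a b μ : ℝ) (hμ : 0 < μ) (ha : μ ≤ |a|) (hb : μ ≤ |b|) :
    |Real.log (a / b)| ≤ |a - b| / μ := by
  have ha0 : 0 < |a| := lt_of_lt_of_le hμ ha
  have hb0 : 0 < |b| := lt_of_lt_of_le hμ hb
  have ha1 : a ≠ 0 := abs_pos.1 ha0
  have hb1 : b ≠ 0 := abs_pos.1 hb0
  have e1 : Real.log (a / b) = Real.log |a| - Real.log |b| := by
    rw [Real.log_div ha1 hb1, Real.log_abs, Real.log_abs]
  have key : ∀ x y : ℝ, μ ≤ x → μ ≤ y → Real.log x - Real.log y ≤ |x - y| / μ := by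
    intro x y hx hy
    have hx0 : 0 < x := lt_of_lt_of_le hμ hx
    have hy0 : 0 < y := lt_of_lt_of_le hμ hy
    rw [← Real.log_div hx0.ne' hy0.ne']
    have h1 := Real.log_le_sub_one_of_pos (div_pos hx0 hy0)
    have h2 : x / y - 1 = (x - y) / y := by
      field_simp
    rw [h2] at h1
    refine h1.trans ?_
    calc (x - y) / y ≤ |x - y| / y := div_le_div_of_nonneg_right (le_abs_self _) hy0.le
      _ ≤ |x - y| / μ := div_le_div_of_nonneg_left (abs_nonneg _) hμ hy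
  have h3 : |(|a| - |b|)| ≤ |a - b| := abs_abs_sub_abs_le_abs_sub a b
  rw [e1, abs_le]
  constructor
  · have h4 := key |b| |a| hb ha
    rw [abs_sub_comm] at h4
    have h5 : |(|a| - |b|)| / μ ≤ |a - b| / μ := div_le_div_of_nonneg_right h3 hμ.le
    linarith
  · have h4 := key |a| |b| ha hb
    have h5 : |(|a| - |b|)| / μ ≤ |a - b| / μ := div_le_div_of_nonneg_right h3 hμ.le
    linarith

theorem L0B_term (l1 l2 δ : ℝ) (h1 : 1 ≤ l1) (h2 : 1 ≤ l2) (hδ : 0 < δ) (hδ1 : δ ≤ 1)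
    (h : ∀ p : ℤ, δ ≤ |p - 5 * l1| ∧ δ ≤ |p - 5 * l2|) (m : ℤ) :
    |Real.log ((l1 ^ 2 - (m : ℝ) ^ 2 / 25) / (l2 ^ 2 - (m : ℝ) ^ 2 / 25))| ≤
      605 * (|l1 - l2| * (l1 + l2)) * (l1 + l2) ^ 2 / δ * L0B_w (l1 + l2) m := by
  have hD : |l1 ^ 2 - (m : ℝ) ^ 2 / 25 - (l2 ^ 2 - (m : ℝ) ^ 2 / 25)| = |l1 - l2| * (l1 + l2) := by
    have e : l1 ^ 2 - (m : ℝ) ^ 2 / 25 - (l2 ^ 2 - (m : ℝ) ^ 2 / 25) = (l1 - l2) * (l1 + l2) := by
      ring
    rw [e, abs_mul, abs_of_pos (by linarith : 0 < l1 + l2)]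
  have hD0 : 0 ≤ |l1 - l2| * (l1 + l2) := mul_nonneg (abs_nonneg _) (by linarith)
  obtain ⟨D, hDdef⟩ : ∃ D, D = |l1 - l2| * (l1 + l2) := ⟨_, rfl⟩
  obtain ⟨M, hMdef⟩ : ∃ M, M = l1 + l2 := ⟨_, rfl⟩
  rw [← hDdef] at hD hD0 ⊢
  rw [← hMdef]
  have hM : 2 ≤ M := by rw [hMdef]; linarith
  obtain ⟨x, hx⟩ : ∃ x, x = |(m : ℝ)| := ⟨_, rfl⟩
  have hx0 : 0 ≤ x := by rw [hx]; exact abs_nonneg _
  have hxx : x ^ 2 = (m : ℝ) ^ 2 := by rw [hx, sq_abs]
  have hw : L0B_w M m = 1 / (M + x) ^ 2 := by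
    unfold L0B_w
    rw [hx]
  rw [hw]
  rcases le_or_gt x (10 * M) with hc | hc
  · have t1 : δ / 5 ≤ |l1 ^ 2 - (m : ℝ) ^ 2 / 25| := by
      have := L0B_tau l1 δ h1 hδ (fun p => (h p).1) m
      nlinarith
    have t2 : δ / 5 ≤ |l2 ^ 2 - (m : ℝ) ^ 2 / 25| := by
      have := L0B_tau l2 δ h2 hδ (fun p => (h p).2) m
      nlinarith
    have key := L0B_log _ _ (δ / 5) (by positivity) t1 t2
    rw [hD] at key
    refine key.trans ?_
    have h3 : (M + x) ^ 2 ≤ 121 * M ^ 2 := by nlinarith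
    have h4 : 1 / 121 ≤ M ^ 2 * (1 / (M + x) ^ 2) := by
      rw [mul_one_div, div_le_div_iff₀ (by norm_num) (by positivity)]
      linarith
    calc D / (δ / 5) = 605 * D / δ * (1 / 121) := by
          field_simp
          ring
      _ ≤ 605 * D / δ * (M ^ 2 * (1 / (M + x) ^ 2)) :=
          mul_le_mul_of_nonneg_left h4 (by positivity)
      _ = 605 * D * M ^ 2 / δ * (1 / (M + x) ^ 2) := by ring
  · have hxpos : 0 < x := by linarith
    have b1 : 3 * x ^ 2 / 100 ≤ |l1 ^ 2 - (m : ℝ) ^ 2 / 25| := by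
      rw [abs_sub_comm, abs_of_nonneg]
      · rw [← hxx]
        have : l1 ≤ M := by rw [hMdef]; linarith
        nlinarith
      · rw [← hxx]
        have : l1 ≤ M := by rw [hMdef]; linarith
        nlinarith
    have b2 : 3 * x ^ 2 / 100 ≤ |l2 ^ 2 - (m : ℝ) ^ 2 / 25| := by
      rw [abs_sub_comm, abs_of_nonneg]
      · rw [← hxx]
        have : l2 ≤ M := by rw [hMdef]; linarith
        nlinarith
      · rw [← hxx]
        have : l2 ≤ M := by rw [hMdef]; linarith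
        nlinarith
    have key := L0B_log _ _ (3 * x ^ 2 / 100) (by positivity) b1 b2
    rw [hD] at key
    refine key.trans ?_
    have h3 : (M + x) ^ 2 ≤ 121 / 100 * x ^ 2 := by nlinarith
    have h4 : 1 / x ^ 2 ≤ 121 / 100 * (1 / (M + x) ^ 2) := by
      rw [mul_one_div, div_le_div_iff₀ (by positivity) (by positivity)]
      linarith
    have h5 : 1 ≤ M ^ 2 / δ := by
      rw [le_div_iff₀ hδ]
      nlinarith
    calc D / (3 * x ^ 2 / 100) = 100 / 3 * D * (1 / x ^ 2) := by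
          field_simp
      _ ≤ 100 / 3 * D * (121 / 100 * (1 / (M + x) ^ 2)) :=
          mul_le_mul_of_nonneg_left h4 (by positivity)
      _ ≤ 605 * D * 1 * (1 / (M + x) ^ 2) := by
          have h6 : 0 ≤ D * (1 / (M + x) ^ 2) := by positivity
          nlinarith
      _ ≤ 605 * D * (M ^ 2 / δ) * (1 / (M + x) ^ 2) := by
          apply mul_le_mul_of_nonneg_right _ (by positivity)
          exact mul_le_mul_of_nonneg_left h5 (by positivity)
      _ = 605 * D * M ^ 2 / δ * (1 / (M + x) ^ 2) := by ring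

theorem L0B_chi (m : ℤ) : |chi m| ≤ 1 := by
  unfold chi
  split_ifs <;> simp

theorem L0B : L0B_stmt := by
  refine ⟨1000, by norm_num, ?_⟩
  intro l1 l2 δ h1 h2 hδ hδ1 h
  obtain ⟨hs, ht⟩ := L0B_int (l1 + l2) (by linarith)
  have hterm := L0B_term l1 l2 δ h1 h2 hδ hδ1 h
  have hsum : Summable (fun m : ℤ =>
      |Real.log ((l1 ^ 2 - (m : ℝ) ^ 2 / 25) / (l2 ^ 2 - (m : ℝ) ^ 2 / 25))|) :=
    Summable.of_nonneg_of_le (fun m => abs_nonneg _) hterm (hs.mul_left _)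
  refine ⟨hsum, ?_⟩
  have hb : ∀ m : ℤ, ‖chi m * (1 / 2 * Real.log ((l1 ^ 2 - (m : ℝ) ^ 2 / 25) /
      (l2 ^ 2 - (m : ℝ) ^ 2 / 25)))‖ ≤
      1 / 2 * (605 * (|l1 - l2| * (l1 + l2)) * (l1 + l2) ^ 2 / δ * L0B_w (l1 + l2) m) := by
    intro m
    rw [Real.norm_eq_abs, abs_mul, abs_mul, abs_of_pos (by norm_num : (0 : ℝ) < 1 / 2)]
    have e1 := L0B_chi m
    have e2 := hterm m
    have e3 : 0 ≤ 1 / 2 * |Real.log ((l1 ^ 2 - (m : ℝ) ^ 2 / 25) /
      (l2 ^ 2 - (m : ℝ) ^ 2 / 25))| := by positivity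
    calc |chi m| * (1 / 2 * |Real.log ((l1 ^ 2 - (m : ℝ) ^ 2 / 25) /
          (l2 ^ 2 - (m : ℝ) ^ 2 / 25))|) ≤ 1 * (1 / 2 * |Real.log ((l1 ^ 2 - (m : ℝ) ^ 2 / 25) /
          (l2 ^ 2 - (m : ℝ) ^ 2 / 25))|) := mul_le_mul_of_nonneg_right e1 e3
      _ ≤ _ := by
        rw [one_mul]
        exact mul_le_mul_of_nonneg_left e2 (by norm_num)
  have hsw := (hs.mul_left (605 * (|l1 - l2| * (l1 + l2)) * (l1 + l2) ^ 2 / δ)).mul_left
    (1 / 2 : ℝ)
  have hfin := tsum_of_norm_bounded hsw.hasSum hb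
  unfold L0
  rw [Real.norm_eq_abs] at hfin
  refine hfin.trans ?_
  rw [tsum_mul_left, tsum_mul_left]
  have hM : 0 < l1 + l2 := by linarith
  have hK : 0 ≤ 605 * (|l1 - l2| * (l1 + l2)) * (l1 + l2) ^ 2 / δ := by positivity
  calc 1 / 2 * (605 * (|l1 - l2| * (l1 + l2)) * (l1 + l2) ^ 2 / δ *
        ∑' m : ℤ, L0B_w (l1 + l2) m) ≤
      1 / 2 * (605 * (|l1 - l2| * (l1 + l2)) * (l1 + l2) ^ 2 / δ * (3 / (l1 + l2))) := by
        apply mul_le_mul_of_nonneg_left _ (by norm_num)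
        exact mul_le_mul_of_nonneg_left ht hK
    _ = (1815 / 2) * ((l1 + l2) ^ 2 * |l1 - l2| / δ) := by
        field_simp
        ring
    _ ≤ 1000 * ((l1 + l2) ^ 2 * |l1 - l2| / δ) := by
        apply mul_le_mul_of_nonneg_right (by norm_num)
        positivity
    _ = 1000 * (l1 + l2) ^ 2 * |l1 - l2| / δ := by ring

end SF
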