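import Mathlib
import Pool.Agent.helper1.SF.SpecA

set_option autoImplicit false

namespace SF

open Pool.Agent.helper72.Sq MeasureTheory Set Filter
open scoped ContDiff Topology

/-- the quotient -/
noncomputable def L0N_r (x : ℝ) : ℝ := ((17 / 10) ^ 2 - x ^ 2 / 25) / ((3 / 2) ^ 2 - x ^ 2 / 25)

theorem L0N_rbig (x : ℝ) (hx : 11 ≤ x) :
    L0N_r x = (4 * x ^ 2 - 289) / (4 * x ^ 2 - 225) ∧ 0 < 4 * x ^ 2 - 289 ∧
      0 < 4 * x ^ 2 - 225 := by
  have h1 : 0 < 4 * x ^ 2 - 289 := by nlinarith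
  have h2 : 0 < 4 * x ^ 2 - 225 := by nlinarith
  refine ⟨?_, h1, h2⟩
  unfold L0N_r
  have h3 : ((3 / 2 : ℝ)) ^ 2 - x ^ 2 / 25 ≠ 0 := by
    have : ((3 / 2 : ℝ)) ^ 2 - x ^ 2 / 25 = -(4 * x ^ 2 - 225) / 100 := by ring
    rw [this]
    apply ne_of_lt
    linarith
  rw [div_eq_div_iff h3 h2.ne']
  ring

theorem L0N_blk (x : ℝ) (hx : 11 ≤ x) :
    Real.log (L0N_r x) + Real.log (L0N_r (x + 3)) ≤
      Real.log (L0N_r (x + 1)) + Real.log (L0N_r (x + 2)) := by
  obtain ⟨e0, q0, p0⟩ := L0N_rbig x hx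
  obtain ⟨e1, q1, p1⟩ := L0N_rbig (x + 1) (by linarith)
  obtain ⟨e2, q2, p2⟩ := L0N_rbig (x + 2) (by linarith)
  obtain ⟨e3, q3, p3⟩ := L0N_rbig (x + 3) (by linarith)
  rw [e0, e1, e2, e3, ← Real.log_mul (div_pos q0 p0).ne' (div_pos q3 p3).ne',
    ← Real.log_mul (div_pos q1 p1).ne' (div_pos q2 p2).ne']
  apply Real.log_le_log (mul_pos (div_pos q0 p0) (div_pos q3 p3))
  rw [div_mul_div_comm, div_mul_div_comm, div_le_div_iff₀ (mul_pos p0 p3) (mul_pos p1 p2)]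
  obtain ⟨t, ht⟩ : ∃ t, t = x - 11 := ⟨_, rfl⟩
  have hxt : x = t + 11 := by linarith
  have ht0 : 0 ≤ t := by linarith
  subst hxt
  have key : (4 * (t + 11 + 1) ^ 2 - 289) * (4 * (t + 11 + 2) ^ 2 - 289) *
      ((4 * (t + 11) ^ 2 - 225) * (4 * (t + 11 + 3) ^ 2 - 225)) -
      (4 * (t + 11) ^ 2 - 289) * (4 * (t + 11 + 3) ^ 2 - 289) *
      ((4 * (t + 11 + 1) ^ 2 - 225) * (4 * (t + 11 + 2) ^ 2 - 225)) =
      800676864 + 330342400 * t + 43933696 * t ^ 2 + 2457600 * t ^ 3 + 49152 * t ^ 4 := by ring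
  have key2 : 0 ≤ 800676864 + 330342400 * t + 43933696 * t ^ 2 + 2457600 * t ^ 3 +
    49152 * t ^ 4 := by positivity
  linarith

theorem L0N_chi_neg (m : ℤ) : chi (-m) = chi m := by
  unfold chi
  by_cases h1 : m % 5 = 1 ∨ m % 5 = 4
  · have h1' : (-m) % 5 = 1 ∨ (-m) % 5 = 4 := by omega
    rw [if_pos h1, if_pos h1']
  · have h1' : ¬((-m) % 5 = 1 ∨ (-m) % 5 = 4) := by omega
    rw [if_neg h1, if_neg h1']
    by_cases h2 : m % 5 = 2 ∨ m % 5 = 3
    · have h2' : (-m) % 5 = 2 ∨ (-m) % 5 = 3 := by omega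
      rw [if_pos h2, if_pos h2']
    · have h2' : ¬((-m) % 5 = 2 ∨ (-m) % 5 = 3) := by omega
      rw [if_neg h2, if_neg h2']

theorem L0N_chi_one (m : ℤ) (h : m % 5 = 1 ∨ m % 5 = 4) : chi m = 1 := by
  unfold chi
  rw [if_pos h]

theorem L0N_chi_two (m : ℤ) (h : m % 5 = 2 ∨ m % 5 = 3) : chi m = -1 := by
  unfold chi
  rw [if_neg (by omega), if_pos h]

theorem L0N_chi_zero (m : ℤ) (h : m % 5 = 0) : chi m = 0 := by
  unfold chi
  rw [if_neg (by omega), if_neg (by omega)]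

/-- the terms -/
noncomputable def L0N_g (m : ℤ) : ℝ := chi m * (1 / 2 * Real.log (L0N_r m))

theorem L0N_even (m : ℤ) : L0N_g (-m) = L0N_g m := by
  unfold L0N_g
  rw [L0N_chi_neg]
  have : L0N_r ((-m : ℤ) : ℝ) = L0N_r (m : ℝ) := by
    unfold L0N_r
    push_cast
    rw [neg_sq]
  rw [this]

theorem L0N_base : ∑ i ∈ Finset.range 10, L0N_g (i : ℤ) ≤ -Real.log 5 / 2 := by
  have r1 : L0N_r 1 = 285 / 221 := by norm_num [L0N_r]
  have r2 : L0N_r 2 = 273 / 209 := by norm_num [L0N_r]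
  have r3 : L0N_r 3 = 253 / 189 := by norm_num [L0N_r]
  have r4 : L0N_r 4 = 225 / 161 := by norm_num [L0N_r]
  have r6 : L0N_r 6 = 145 / 81 := by norm_num [L0N_r]
  have r7 : L0N_r 7 = 93 / 29 := by norm_num [L0N_r]
  have r8 : L0N_r 8 = -(33 / 31) := by norm_num [L0N_r]
  have r9 : L0N_r 9 = 35 / 99 := by norm_num [L0N_r]
  have g0 : L0N_g ((0 : ℕ) : ℤ) = 0 := by
    unfold L0N_g
    rw [L0N_chi_zero _ (by norm_num), zero_mul]
  have g1 : L0N_g ((1 : ℕ) : ℤ) = 1 / 2 * Real.log (285 / 221) := by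
    unfold L0N_g
    rw [L0N_chi_one _ (by norm_num), one_mul]
    norm_num [r1]
  have g2 : L0N_g ((2 : ℕ) : ℤ) = -(1 / 2 * Real.log (273 / 209)) := by
    unfold L0N_g
    rw [L0N_chi_two _ (by norm_num)]
    norm_num [r2]
  have g3 : L0N_g ((3 : ℕ) : ℤ) = -(1 / 2 * Real.log (253 / 189)) := by
    unfold L0N_g
    rw [L0N_chi_two _ (by norm_num)]
    norm_num [r3]
  have g4 : L0N_g ((4 : ℕ) : ℤ) = 1 / 2 * Real.log (225 / 161) := by
    unfold L0N_g
    rw [L0N_chi_one _ (by norm_num), one_mul]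
    norm_num [r4]
  have g5 : L0N_g ((5 : ℕ) : ℤ) = 0 := by
    unfold L0N_g
    rw [L0N_chi_zero _ (by norm_num), zero_mul]
  have g6 : L0N_g ((6 : ℕ) : ℤ) = 1 / 2 * Real.log (145 / 81) := by
    unfold L0N_g
    rw [L0N_chi_one _ (by norm_num), one_mul]
    norm_num [r6]
  have g7 : L0N_g ((7 : ℕ) : ℤ) = -(1 / 2 * Real.log (93 / 29)) := by
    unfold L0N_g
    rw [L0N_chi_two _ (by norm_num)]
    norm_num [r7]
  have g8 : L0N_g ((8 : ℕ) : ℤ) = -(1 / 2 * Real.log (33 / 31)) := by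
    unfold L0N_g
    rw [L0N_chi_two _ (by norm_num)]
    have : L0N_r (((8 : ℕ) : ℤ) : ℝ) = -(33 / 31) := by
      rw [← r8]
      norm_num
    rw [this, Real.log_neg_eq_log]
    ring
  have g9 : L0N_g ((9 : ℕ) : ℤ) = 1 / 2 * Real.log (35 / 99) := by
    unfold L0N_g
    rw [L0N_chi_one _ (by norm_num), one_mul]
    norm_num [r9]
  simp only [Finset.sum_range_succ, Finset.sum_range_zero]
  rw [g0, g1, g2, g3, g4, g5, g6, g7, g8, g9]
  have key : Real.log (285 / 221) + Real.log (225 / 161) + Real.log (145 / 81) +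
      Real.log (35 / 99) + Real.log 5 ≤
      Real.log (273 / 209) + Real.log (253 / 189) + Real.log (93 / 29) + Real.log (33 / 31) := by
    rw [← Real.log_mul (by norm_num) (by norm_num), ← Real.log_mul (by norm_num) (by norm_num),
      ← Real.log_mul (by norm_num) (by norm_num), ← Real.log_mul (by norm_num) (by norm_num),
      ← Real.log_mul (by norm_num) (by norm_num), ← Real.log_mul (by norm_num) (by norm_num),
      ← Real.log_mul (by norm_num) (by norm_num)]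
    apply Real.log_le_log (by norm_num)
    norm_num
  linarith

theorem L0N_part (N : ℕ) :
    ∑ i ∈ Finset.range (5 * (N + 2)), L0N_g (i : ℤ) ≤ -Real.log 5 / 2 := by
  induction N with
  | zero => exact L0N_base
  | succ N ih =>
    have e : 5 * (N + 1 + 2) = 5 * (N + 2) + 1 + 1 + 1 + 1 + 1 := by ring
    rw [e]
    rw [Finset.sum_range_succ, Finset.sum_range_succ, Finset.sum_range_succ,
      Finset.sum_range_succ, Finset.sum_range_succ]
    have c0 : L0N_g ((5 * (N + 2) : ℕ) : ℤ) = 0 := by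
      unfold L0N_g
      rw [L0N_chi_zero _ (by push_cast; omega), zero_mul]
    obtain ⟨x, hx⟩ : ∃ x : ℝ, x = 5 * ((N : ℝ) + 2) + 1 := ⟨_, rfl⟩
    have hx11 : 11 ≤ x := by
      have : (0 : ℝ) ≤ N := Nat.cast_nonneg N
      rw [hx]
      linarith
    have c1 : L0N_g ((5 * (N + 2) + 1 : ℕ) : ℤ) = 1 / 2 * Real.log (L0N_r x) := by
      unfold L0N_g
      rw [L0N_chi_one _ (by push_cast; omega), one_mul]
      have : (((5 * (N + 2) + 1 : ℕ) : ℤ) : ℝ) = x := by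
        rw [hx]
        push_cast
        ring
      rw [this]
    have c2 : L0N_g ((5 * (N + 2) + 1 + 1 : ℕ) : ℤ) = -(1 / 2 * Real.log (L0N_r (x + 1))) := by
      unfold L0N_g
      rw [L0N_chi_two _ (by push_cast; omega)]
      have : (((5 * (N + 2) + 1 + 1 : ℕ) : ℤ) : ℝ) = x + 1 := by
        rw [hx]
        push_cast
        ring
      rw [this]
      ring
    have c3 : L0N_g ((5 * (N + 2) + 1 + 1 + 1 : ℕ) : ℤ) =
        -(1 / 2 * Real.log (L0N_r (x + 2))) := by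
      unfold L0N_g
      rw [L0N_chi_two _ (by push_cast; omega)]
      have : (((5 * (N + 2) + 1 + 1 + 1 : ℕ) : ℤ) : ℝ) = x + 2 := by
        rw [hx]
        push_cast
        ring
      rw [this]
      ring
    have c4 : L0N_g ((5 * (N + 2) + 1 + 1 + 1 + 1 : ℕ) : ℤ) =
        1 / 2 * Real.log (L0N_r (x + 3)) := by
      unfold L0N_g
      rw [L0N_chi_one _ (by push_cast; omega), one_mul]
      have : (((5 * (N + 2) + 1 + 1 + 1 + 1 : ℕ) : ℤ) : ℝ) = x + 3 := by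
        rw [hx]
        push_cast
        ring
      rw [this]
    rw [c0, c1, c2, c3, c4]
    have h := L0N_blk x hx11
    linarith

theorem L0N (hL0B : L0B_stmt) : L0N_stmt := by
  obtain ⟨C, -, hC⟩ := hL0B
  have hcond : ∀ p : ℤ, (1 / 2 : ℝ) ≤ |p - 5 * (17 / 10 : ℝ)| ∧
      (1 / 2 : ℝ) ≤ |p - 5 * (3 / 2 : ℝ)| := by
    intro p
    constructor
    · rcases le_or_gt p 8 with h | h
      · have h' : (p : ℝ) ≤ 8 := by exact_mod_cast h
        rw [abs_of_nonpos (by linarith)]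
        linarith
      · have h' : (9 : ℝ) ≤ p := by exact_mod_cast h
        rw [abs_of_nonneg (by linarith)]
        linarith
    · rcases le_or_gt p 7 with h | h
      · have h' : (p : ℝ) ≤ 7 := by exact_mod_cast h
        rw [abs_of_nonpos (by linarith)]
        linarith
      · have h' : (8 : ℝ) ≤ p := by exact_mod_cast h
        rw [abs_of_nonneg (by linarith)]
        linarith
  obtain ⟨hs, -⟩ := hC (17 / 10) (3 / 2) (1 / 2) (by norm_num) (by norm_num) (by norm_num)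
    (by norm_num) hcond
  have hg : Summable L0N_g := by
    refine Summable.of_norm_bounded hs fun m => ?_
    unfold L0N_g
    rw [Real.norm_eq_abs, abs_mul, abs_mul, abs_of_pos (by norm_num : (0 : ℝ) < 1 / 2)]
    have e1 : |chi m| ≤ 1 := by
      unfold chi
      split_ifs <;> simp
    have e2 : 0 ≤ |Real.log (L0N_r m)| := abs_nonneg _
    have e3 : |Real.log (L0N_r m)| = |Real.log (((17 / 10 : ℝ) ^ 2 - (m : ℝ) ^ 2 / 25) /
      ((3 / 2 : ℝ) ^ 2 - (m : ℝ) ^ 2 / 25))| := rfl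
    rw [← e3]
    calc |chi m| * (1 / 2 * |Real.log (L0N_r m)|) ≤ 1 * (1 / 2 * |Real.log (L0N_r m)|) :=
          mul_le_mul_of_nonneg_right e1 (by positivity)
      _ ≤ |Real.log (L0N_r m)| := by linarith
  have hL : L0 (17 / 10) (3 / 2) = ∑' m : ℤ, L0N_g m := rfl
  have s1 : Summable (fun n : ℕ => L0N_g (n : ℤ)) :=
    hg.comp_injective (i := fun n : ℕ => (n : ℤ)) Nat.cast_injective
  have e2 : ∀ n : ℕ, L0N_g (-((n : ℤ) + 1)) = L0N_g (((n + 1 : ℕ) : ℤ)) := by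
    intro n
    rw [L0N_even]
    push_cast
    rfl
  have s2 : Summable (fun n : ℕ => L0N_g (-((n : ℤ) + 1))) := by
    simp only [e2]
    exact (summable_nat_add_iff (f := fun n : ℕ => L0N_g (n : ℤ)) 1).2 s1
  have g0 : L0N_g ((0 : ℕ) : ℤ) = 0 := by
    unfold L0N_g
    rw [L0N_chi_zero _ (by norm_num), zero_mul]
  have hT : ∑' m : ℤ, L0N_g m = 2 * ∑' n : ℕ, L0N_g (n : ℤ) := by
    rw [tsum_of_nat_of_neg_add_one s1 s2]
    have h3 : ∑' n : ℕ, L0N_g (-((n : ℤ) + 1)) = ∑' n : ℕ, L0N_g ((n + 1 : ℕ) : ℤ) :=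
      tsum_congr e2
    have h4 := s1.tsum_eq_zero_add
    rw [g0, zero_add] at h4
    rw [h3, ← h4]
    ring
  have hlim : Tendsto (fun N : ℕ => ∑ i ∈ Finset.range (5 * (N + 2)), L0N_g (i : ℤ)) atTop
      (𝓝 (∑' n : ℕ, L0N_g (n : ℤ))) := by
    have h5 : Tendsto (fun N : ℕ => 5 * (N + 2)) atTop atTop := by
      apply tendsto_atTop_mono (fun N => (by omega : N ≤ 5 * (N + 2)))
      exact tendsto_id
    exact s1.hasSum.tendsto_sum_nat.comp h5
  have hle : ∑' n : ℕ, L0N_g (n : ℤ) ≤ -Real.log 5 / 2 := le_of_tendsto' hlim L0N_part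
  unfold L0N_stmt
  rw [hL, hT]
  linarith

end SF
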