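import Mathlib
import Pool.Agent.helper68.SF.SpecW

set_option autoImplicit false

namespace SF

open Pool.Agent.helper72.Sq
open scoped ContDiff

theorem RH (hK1 : K1_stmt) : RH_stmt := by
  intro g hg s x y x0 k hy hA
  obtain ⟨-, -, -, -, h5⟩ := hK1 g hg
  have h : ∀ r : ℝ, k1 g s (x + k + r) y + 1 / 2 * Real.sign (x0 + k + r) * b1 g s (x + k + r) y
      = 1 / 2 * (Real.sign (x0 + k + r) - Real.sign (x + k + r)) * b1 g s (x + k + r) y := by
    intro r
    rw [h5 s (x + k + r) y hy hA]
    ring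
  unfold Bk c5
  simp only [h]

end SF
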