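import Mathlib
import Pool.Agent.helper1.SF.SpecA

set_option autoImplicit false

namespace SF

open Pool.Agent.helper72.Sq MeasureTheory Set
open scoped ContDiff

/-- distance of the factors from zero -/
theorem VSN_tau (l δ : ℝ) (hl : 1 ≤ l) (hδ : 0 < δ) (h : ∀ p : ℤ, δ ≤ |p - 5 * l|) (m : ℤ) :
    δ / 5 ≤ |l ^ 2 - (m : ℝ) ^ 2 / 25| := by
  have e : l ^ 2 - (m : ℝ) ^ 2 / 25 = (5 * l - m) * (5 * l + m) / 25 := by ring
  rw [e, abs_div, abs_mul, abs_of_pos (by norm_num : (0 : ℝ) < 25)]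
  have h1 : δ ≤ |5 * l - m| := by
    have := h m
    rwa [abs_sub_comm] at this
  have h2 : δ ≤ |5 * l + m| := by
    have := h (-m)
    push_cast at this
    rw [abs_sub_comm] at this
    have e3 : 5 * l - -(m : ℝ) = 5 * l + m := by ring
    rwa [e3] at this
  rcases le_total 0 (m : ℝ) with hm | hm
  · have h3 : 5 ≤ |5 * l + m| := by
      rw [abs_of_nonneg (by linarith)]
      linarith
    have h4 : δ * 5 ≤ |5 * l - m| * |5 * l + m| :=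
      mul_le_mul h1 h3 (by linarith) (abs_nonneg _)
    linarith
  · have h3 : 5 ≤ |5 * l - m| := by
      rw [abs_of_nonneg (by linarith)]
      linarith
    have h4 : 5 * δ ≤ |5 * l - m| * |5 * l + m| :=
      mul_le_mul h3 h2 hδ.le (abs_nonneg _)
    linarith

/-- the difference between `Lgm` and the main term -/
noncomputable def VSN_d (σ l : ℝ) (m : ℤ) : ℝ :=
  LA σ 1 l 1 m - 1 / 2 * Real.log (l ^ 2 - (m : ℝ) ^ 2 / 25)

theorem VSN_LA (σ l : ℝ) (m : ℤ) :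
    LA σ 1 l 1 m = Lgm ((σ - 1) * (1 + l ^ 2)) (l ^ 2 - (m : ℝ) ^ 2 / 25) := by
  unfold LA
  congr 1 <;> ring

theorem VSN_neg (σ l δ : ℝ) (hl : 1 ≤ l) (hδ : 0 < δ) (h : ∀ p : ℤ, δ ≤ |p - 5 * l|)
    (hσ : 1 < σ) (hσδ : 5 * ((σ - 1) * (1 + l ^ 2)) < δ) (m : ℤ)
    (hm : l ^ 2 - (m : ℝ) ^ 2 / 25 < 0) : VSN_d σ l m = 0 := by
  have h1 := VSN_tau l δ hl hδ h m
  obtain ⟨τ, hτ⟩ : ∃ τ, τ = l ^ 2 - (m : ℝ) ^ 2 / 25 := ⟨_, rfl⟩
  obtain ⟨u, hu⟩ : ∃ u, u = (σ - 1) * (1 + l ^ 2) := ⟨_, rfl⟩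
  unfold VSN_d
  rw [VSN_LA]
  rw [← hτ] at h1 hm ⊢
  rw [← hu] at hσδ ⊢
  rw [abs_of_neg hm] at h1
  have hu0 : 0 < u := by
    rw [hu]
    have : 0 < σ - 1 := by linarith
    positivity
  unfold Lgm
  rw [max_eq_right (by linarith), Real.sqrt_eq_zero_of_nonpos (by linarith : u + τ ≤ 0), add_zero,
    Real.log_sqrt (by linarith), Real.log_neg_eq_log]
  ring

theorem VSN_pos (σ l δ : ℝ) (hl : 1 ≤ l) (hδ : 0 < δ) (h : ∀ p : ℤ, δ ≤ |p - 5 * l|)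
    (hσ : 1 < σ) (m : ℤ)
    (hm : 0 < l ^ 2 - (m : ℝ) ^ 2 / 25) :
    |VSN_d σ l m| ≤ 8 * l * √((σ - 1) / δ) := by
  have h1 := VSN_tau l δ hl hδ h m
  obtain ⟨τ, hτ⟩ : ∃ τ, τ = l ^ 2 - (m : ℝ) ^ 2 / 25 := ⟨_, rfl⟩
  obtain ⟨u, hu⟩ : ∃ u, u = (σ - 1) * (1 + l ^ 2) := ⟨_, rfl⟩
  unfold VSN_d
  rw [VSN_LA]
  rw [← hτ] at h1 hm ⊢
  rw [← hu]
  rw [abs_of_pos hm] at h1
  have hσ0 : 0 < σ - 1 := by linarith
  have hu0 : 0 < u := by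
    rw [hu]
    positivity
  unfold Lgm
  rw [max_eq_left (by linarith)]
  have hsτ : 0 < √τ := Real.sqrt_pos.2 hm
  have hsu : 0 < √u := Real.sqrt_pos.2 hu0
  have hsuτ : √τ ≤ √(u + τ) := Real.sqrt_le_sqrt (by linarith)
  have e1 : 1 / 2 * Real.log τ = Real.log (√τ) := by
    rw [Real.log_sqrt hm.le]
    ring
  rw [e1, ← Real.log_div (by positivity) hsτ.ne']
  have hge : 1 ≤ (√u + √(u + τ)) / √τ := by
    rw [le_div_iff₀ hsτ]
    linarith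
  rw [abs_of_nonneg (Real.log_nonneg hge)]
  have h2 := Real.log_le_sub_one_of_pos (lt_of_lt_of_le one_pos hge)
  have h3 : √(u + τ) ≤ √u + √τ := by
    rw [Real.sqrt_le_iff]
    refine ⟨by positivity, ?_⟩
    have a1 := Real.sq_sqrt hu0.le
    have a2 := Real.sq_sqrt hm.le
    have a3 : 0 ≤ √u * √τ := by positivity
    nlinarith
  have h4 : (√u + √(u + τ)) / √τ - 1 ≤ 2 * (√u / √τ) := by
    rw [sub_le_iff_le_add, div_le_iff₀ hsτ, add_mul, mul_assoc, div_mul_cancel₀ _ hsτ.ne', one_mul]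
    linarith
  have h5 : √u / √τ ≤ 4 * l * √((σ - 1) / δ) := by
    rw [← Real.sqrt_div hu0.le]
    have h6 : u / τ ≤ (4 * l) ^ 2 * ((σ - 1) / δ) := by
      rw [div_le_iff₀ hm]
      have h7 : (σ - 1) * (1 + l ^ 2) ≤ (σ - 1) * (2 * l ^ 2) := by
        apply mul_le_mul_of_nonneg_left _ hσ0.le
        nlinarith
      have h8 : (4 * l) ^ 2 * ((σ - 1) / δ) * (δ / 5) ≤ (4 * l) ^ 2 * ((σ - 1) / δ) * τ :=
        mul_le_mul_of_nonneg_left h1 (by positivity)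
      have h9 : (4 * l) ^ 2 * ((σ - 1) / δ) * (δ / 5) = 16 / 5 * ((σ - 1) * l ^ 2) := by
        field_simp
        ring
      rw [h9] at h8
      have h10 : 0 ≤ (σ - 1) * l ^ 2 := by positivity
      rw [hu]
      linarith
    calc √(u / τ) ≤ √((4 * l) ^ 2 * ((σ - 1) / δ)) := Real.sqrt_le_sqrt h6
      _ = 4 * l * √((σ - 1) / δ) := by
        rw [Real.sqrt_mul (by positivity), Real.sqrt_sq (by positivity)]
  linarith

/-- the range of the integers with `τ > 0` -/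
noncomputable def VSN_T (l : ℝ) : Finset ℤ := Finset.Icc (-⌊5 * l⌋) ⌊5 * l⌋

theorem VSN_card (l : ℝ) (hl : 1 ≤ l) : ((VSN_T l).card : ℝ) ≤ 11 * l := by
  unfold VSN_T
  have h0 : 0 ≤ ⌊5 * l⌋ := Int.floor_nonneg.2 (by linarith)
  have h1 : ((Finset.Icc (-⌊5 * l⌋) ⌊5 * l⌋).card : ℤ) = 2 * ⌊5 * l⌋ + 1 := by
    rw [Int.card_Icc]
    omega
  have h2 : ((Finset.Icc (-⌊5 * l⌋) ⌊5 * l⌋).card : ℝ) = 2 * (⌊5 * l⌋ : ℝ) + 1 := by
    exact_mod_cast h1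
  rw [h2]
  have h3 := Int.floor_le (5 * l)
  linarith

theorem VSN_out (σ l δ : ℝ) (hl : 1 ≤ l) (hδ : 0 < δ) (h : ∀ p : ℤ, δ ≤ |p - 5 * l|)
    (hσ : 1 < σ) (hσδ : 5 * ((σ - 1) * (1 + l ^ 2)) < δ) (m : ℤ) (hm : m ∉ VSN_T l) :
    VSN_d σ l m = 0 := by
  apply VSN_neg σ l δ hl hδ h hσ hσδ
  have h1 : 5 * l < |(m : ℝ)| := by
    unfold VSN_T at hm
    rw [Finset.mem_Icc, not_and_or, not_le, not_le] at hm
    rcases hm with hm | hm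
    · have h2 : ⌊5 * l⌋ < -m := by omega
      have h3 := Int.floor_lt.1 h2
      push_cast at h3
      exact lt_of_lt_of_le h3 (neg_le_abs _)
    · have h3 := Int.floor_lt.1 hm
      exact lt_of_lt_of_le h3 (le_abs_self _)
  have h2 : (5 * l) ^ 2 < |(m : ℝ)| ^ 2 := pow_lt_pow_left₀ h1 (by linarith) (by norm_num)
  rw [sq_abs] at h2
  linarith

theorem VSN_bd (σ l δ : ℝ) (hl : 1 ≤ l) (hδ : 0 < δ) (h : ∀ p : ℤ, δ ≤ |p - 5 * l|)
    (hσ : 1 < σ) (hσδ : 5 * ((σ - 1) * (1 + l ^ 2)) < δ) (m : ℤ) :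
    |VSN_d σ l m| ≤ 8 * l * √((σ - 1) / δ) := by
  rcases lt_trichotomy (l ^ 2 - (m : ℝ) ^ 2 / 25) 0 with hm | hm | hm
  · rw [VSN_neg σ l δ hl hδ h hσ hσδ m hm, abs_zero]
    have : 0 ≤ l := by linarith
    positivity
  · have h1 := VSN_tau l δ hl hδ h m
    rw [hm, abs_zero] at h1
    linarith
  · exact VSN_pos σ l δ hl hδ h hσ m hm

theorem VSN_sum (σ l δ : ℝ) (hl : 1 ≤ l) (hδ : 0 < δ) (h : ∀ p : ℤ, δ ≤ |p - 5 * l|)
    (hσ : 1 < σ) (hσδ : 5 * ((σ - 1) * (1 + l ^ 2)) < δ) :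
    HasSum (fun m : ℤ => |VSN_d σ l m|) (∑ m ∈ VSN_T l, |VSN_d σ l m|) ∧
    ∑ m ∈ VSN_T l, |VSN_d σ l m| ≤ 88 * l ^ 2 * √((σ - 1) / δ) := by
  constructor
  · apply hasSum_sum_of_ne_finset_zero
    intro m hm
    rw [VSN_out σ l δ hl hδ h hσ hσδ m hm, abs_zero]
  · have h1 : ∑ m ∈ VSN_T l, |VSN_d σ l m| ≤ (VSN_T l).card • (8 * l * √((σ - 1) / δ)) :=
      Finset.sum_le_card_nsmul _ _ _ fun m _ => VSN_bd σ l δ hl hδ h hσ hσδ m
    rw [nsmul_eq_mul] at h1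
    have h2 := VSN_card l hl
    have h3 : 0 ≤ 8 * l * √((σ - 1) / δ) := by
      have : 0 ≤ l := by linarith
      positivity
    calc _ ≤ _ := h1
      _ ≤ (11 * l) * (8 * l * √((σ - 1) / δ)) := mul_le_mul_of_nonneg_right h2 h3
      _ = 88 * l ^ 2 * √((σ - 1) / δ) := by ring

theorem VSN_chi (m : ℤ) : |chi m| ≤ 1 := by
  unfold chi
  split_ifs <;> simp

theorem VSN (hL0B : L0B_stmt) : VSN_stmt := by
  obtain ⟨C, -, hC⟩ := hL0B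
  refine ⟨88, by norm_num, ?_⟩
  intro σ l1 l2 δ hσ hσ2 h1 h2 hδ hδ1 h hsm
  obtain ⟨hs, -⟩ := hC l1 l2 δ h1 h2 hδ hδ1 h
  have hσ0 : 0 < σ - 1 := by linarith
  have hb1 : 5 * ((σ - 1) * (1 + l1 ^ 2)) < δ := by
    refine lt_of_le_of_lt ?_ hsm
    have : (σ - 1) * (1 + l1 ^ 2) ≤ (σ - 1) * (1 + l1 + l2) ^ 2 :=
      mul_le_mul_of_nonneg_left (by nlinarith) hσ0.le
    linarith
  have hb2 : 5 * ((σ - 1) * (1 + l2 ^ 2)) < δ := by
    refine lt_of_le_of_lt ?_ hsm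
    have : (σ - 1) * (1 + l2 ^ 2) ≤ (σ - 1) * (1 + l1 + l2) ^ 2 :=
      mul_le_mul_of_nonneg_left (by nlinarith) hσ0.le
    linarith
  obtain ⟨s1, b1⟩ := VSN_sum σ l1 δ h1 hδ (fun p => (h p).1) hσ hb1
  obtain ⟨s2, b2⟩ := VSN_sum σ l2 δ h2 hδ (fun p => (h p).2) hσ hb2
  have hdec : ∀ m : ℤ, LA σ 1 l1 1 m - LA σ 1 l2 1 m =
      1 / 2 * Real.log ((l1 ^ 2 - (m : ℝ) ^ 2 / 25) / (l2 ^ 2 - (m : ℝ) ^ 2 / 25)) +
      (VSN_d σ l1 m - VSN_d σ l2 m) := by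
    intro m
    have t1 : l1 ^ 2 - (m : ℝ) ^ 2 / 25 ≠ 0 := by
      intro h0
      have := VSN_tau l1 δ h1 hδ (fun p => (h p).1) m
      rw [h0, abs_zero] at this
      linarith
    have t2 : l2 ^ 2 - (m : ℝ) ^ 2 / 25 ≠ 0 := by
      intro h0
      have := VSN_tau l2 δ h2 hδ (fun p => (h p).2) m
      rw [h0, abs_zero] at this
      linarith
    rw [Real.log_div t1 t2]
    unfold VSN_d
    ring
  have hsum : Summable (fun m : ℤ => |LA σ 1 l1 1 m - LA σ 1 l2 1 m|) := by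
    refine Summable.of_nonneg_of_le (fun m => abs_nonneg _) (fun m => ?_)
      ((hs.mul_left (1 / 2)).add (s1.summable.add s2.summable))
    rw [hdec m]
    refine (abs_add_le _ _).trans ?_
    rw [abs_mul, abs_of_pos (by norm_num : (0 : ℝ) < 1 / 2)]
    have := abs_sub (VSN_d σ l1 m) (VSN_d σ l2 m)
    linarith
  refine ⟨hsum, ?_⟩
  have hchi : ∀ (f : ℤ → ℝ), Summable (fun m => |f m|) → Summable (fun m => chi m * f m) := by
    intro f hf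
    refine Summable.of_norm_bounded hf fun m => ?_
    rw [Real.norm_eq_abs, abs_mul]
    calc |chi m| * |f m| ≤ 1 * |f m| := mul_le_mul_of_nonneg_right (VSN_chi m) (abs_nonneg _)
      _ = |f m| := one_mul _
  have hA : Summable (fun m : ℤ => chi m * (LA σ 1 l1 1 m - LA σ 1 l2 1 m)) := hchi _ hsum
  have hB : Summable (fun m : ℤ => chi m * (1 / 2 * Real.log ((l1 ^ 2 - (m : ℝ) ^ 2 / 25) /
      (l2 ^ 2 - (m : ℝ) ^ 2 / 25)))) := by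
    apply hchi
    refine (hs.mul_left (1 / 2)).congr fun m => ?_
    rw [abs_mul, abs_of_pos (by norm_num : (0 : ℝ) < 1 / 2)]
  unfold L0
  rw [← hA.tsum_sub hB]
  have hb : ∀ m : ℤ, ‖chi m * (LA σ 1 l1 1 m - LA σ 1 l2 1 m) - chi m * (1 / 2 *
      Real.log ((l1 ^ 2 - (m : ℝ) ^ 2 / 25) / (l2 ^ 2 - (m : ℝ) ^ 2 / 25)))‖ ≤
      |VSN_d σ l1 m| + |VSN_d σ l2 m| := by
    intro m
    have e : chi m * (LA σ 1 l1 1 m - LA σ 1 l2 1 m) - chi m * (1 / 2 *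
      Real.log ((l1 ^ 2 - (m : ℝ) ^ 2 / 25) / (l2 ^ 2 - (m : ℝ) ^ 2 / 25))) =
      chi m * (VSN_d σ l1 m - VSN_d σ l2 m) := by
      rw [hdec m]
      ring
    rw [e, Real.norm_eq_abs, abs_mul]
    have e1 := VSN_chi m
    have e2 := abs_sub (VSN_d σ l1 m) (VSN_d σ l2 m)
    calc |chi m| * |VSN_d σ l1 m - VSN_d σ l2 m| ≤ 1 * |VSN_d σ l1 m - VSN_d σ l2 m| :=
          mul_le_mul_of_nonneg_right e1 (abs_nonneg _)
      _ ≤ _ := by linarith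
  have hfin := tsum_of_norm_bounded (s1.add s2) hb
  rw [Real.norm_eq_abs] at hfin
  refine hfin.trans ?_
  have hx : 0 ≤ √((σ - 1) / δ) := Real.sqrt_nonneg _
  calc _ ≤ 88 * l1 ^ 2 * √((σ - 1) / δ) + 88 * l2 ^ 2 * √((σ - 1) / δ) := add_le_add b1 b2
    _ = 88 * (l1 ^ 2 + l2 ^ 2) * √((σ - 1) / δ) := by ring
    _ ≤ 88 * (1 + l1 + l2) ^ 2 * √((σ - 1) / δ) := by
      apply mul_le_mul_of_nonneg_right _ hx
      nlinarith

end SF
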