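import Mathlib
import Pool.Agent.helper1.SF.SpecA

set_option autoImplicit false

namespace SF

open Pool.Agent.helper72.Sq MeasureTheory Set
open scoped ContDiff

theorem LSM : LSM_stmt := by
  intro q h0 h1
  have hf : ∀ n : ℕ, ∑' _ : Fin n → Bool, q ^ n = (2 * q) ^ n := by
    intro n
    rw [tsum_fintype, Finset.sum_const, Finset.card_univ, Fintype.card_fun, Fintype.card_bool,
      Fintype.card_fin, nsmul_eq_mul, mul_pow]
    push_cast
    ring
  have hs : Summable (fun x : Σ n : ℕ, (Fin n → Bool) => q ^ x.1) := by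
    rw [summable_sigma_of_nonneg (fun x => pow_nonneg h0 _)]
    refine ⟨fun n => (hasSum_fintype _).summable, ?_⟩
    simp only [hf]
    exact summable_geometric_of_lt_one (by linarith) (by linarith)
  have ht : ∑' x : (Σ n : ℕ, (Fin n → Bool)), q ^ x.1 ≤ 2 := by
    rw [hs.tsum_sigma' (fun n => (hasSum_fintype _).summable)]
    simp only [hf]
    rw [tsum_geometric_of_lt_one (by linarith) (by linarith)]
    rw [inv_le_comm₀ (by linarith) (by norm_num)]
    linarith
  have he : (fun w : List Bool => q ^ w.length) =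
      (fun x : Σ n : ℕ, (Fin n → Bool) => q ^ x.1) ∘ (List.equivSigmaTuple (α := Bool)) := by
    funext w
    rfl
  rw [he]
  exact ⟨(List.equivSigmaTuple (α := Bool)).summable_iff.2 hs, by
    rw [show (∑' w : List Bool, ((fun x : Σ n : ℕ, (Fin n → Bool) => q ^ x.1) ∘
      (List.equivSigmaTuple (α := Bool))) w) = ∑' x : (Σ n : ℕ, (Fin n → Bool)), q ^ x.1 from
      (List.equivSigmaTuple (α := Bool)).tsum_eq (fun x => q ^ x.1)]
    exact ht⟩

end SF
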